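import Pool.Agent.H49.KT.Targets

/-!
Module BL of the board kt_modules.
-/

namespace Pool.Agent.H30.KT

open Pool.Agent.H49.KT Function

theorem cntN_succ (U : BM) (m i : ℕ) (P : List Bool) :
    cntN U m (i + 1) P = cntN U m i P + (if P <+: oo U m i then 1 else 0) := by
  unfold cntN
  rw [Finset.range_add_one, Finset.filter_insert]
  split_ifs with h
  · rw [Finset.card_insert_of_notMem (by simp)]
  · simp

theorem un_ite (c : Prop) [Decidable c] (a : ℕ) :
    (if c then true :: un a else un a) = un (a + (if c then 1 else 0)) := by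
  split_ifs
  · rfl
  · rfl

theorem ds_zero : ds 0 = [] := rfl

theorem pf_BL : T_BODY → T_BL := by
  intro hB U
  obtain ⟨B, hB⟩ := hB U
  refine ⟨B + 1, ?_⟩
  intro v z m N P hH hd hall hall' hv0 hv1 hl hu
  obtain ⟨hm, hp, hm', hclk, hclk', hd', he, hq⟩ := hH
  let Z : ℕ → Nm → List Bool := fun i =>
    update (update (update (update (update z .all []) .all' (un i)) .d (ds i))
      .v1 (un (cntN U m i (P ++ [true])))) .v0 (un (cntN U m i (P ++ [false])))
  have h := sp_lp_inv (U := U) (v := v) (u := E₀ U) (z := z) (x := .all) (c := body) (un N) hall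
    (fun i v' u' z' => (v'.l = none ∧ v'.u = U.tm.initialState ∧ v'.mode = v.mode) ∧
      u' = E₀ U ∧ z' = Z i)
    (fun i => B * (2 ^ (m - (ds i).length) + m + (ds i).length + P.length + 1))
    (fun i v' u' z' a hI => hI) ?_ ?_
  · obtain ⟨v', u', z', ⟨hI1, rfl, rfl⟩, -, hS⟩ := h
    simp only [List.length_replicate] at hS
    refine ⟨v', hI1, hS.mono ?_⟩
    rw [add_mul, one_mul, Finset.sum_add_distrib, ← Finset.mul_sum]
    have : ∑ x ∈ Finset.range N, 1 ≤
        ∑ i ∈ Finset.range N, (2 ^ (m - (ds i).length) + m + (ds i).length + P.length + 1) :=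
      Finset.sum_le_sum fun i _ => Nat.le_add_left _ _
    omega
  · refine ⟨⟨hl, hu, rfl⟩, rfl, ?_⟩
    funext k
    have c0 : ∀ Q, cntN U m 0 Q = 0 := fun Q => by simp [cntN]
    cases k <;> simp [Z, update, ds_zero, hd, hall', hv0, hv1, c0]
  · intro i hi v₁ u₁ z₁ hI _
    obtain ⟨⟨h1, h2, h3⟩, rfl, rfl⟩ := hI
    obtain ⟨v', hR, hS⟩ := hB v₁ (Z i) m i P
      (by
        refine ⟨?_, ?_, ?_, ?_, ?_, ?_, ?_, ?_⟩ <;> simp [Z, update, *])
      (by simp [Z, update])
    refine ⟨v', E₀ U, Z (i + 1), ⟨⟨hR.1, hR.2.1, hR.2.2.trans h3⟩, rfl, rfl⟩, ?_⟩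
    refine ⟨hS.1.trans (congrArg _ ?_), hS.2⟩
    funext k
    cases k <;> simp [Z, update, cntN_succ, List.replicate_succ]
    · split_ifs <;> simp [List.replicate_succ]
    · split_ifs <;> simp [List.replicate_succ]

end Pool.Agent.H30.KT
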