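import Pool.Agent.H49.KT.Targets

/-!
Module MS of the board kt_modules.
-/

namespace Pool.Agent.H30.KT

open Pool.Agent.H49.KT Function Turing

/-- configurations of the modified machine -/
abbrev CM (U : BM) : Type :=
  TM2.Cfg (GG U) (Option (Lab (top (U := U)))) (MM U × Bool)

/-- the start configuration of the modified machine -/
theorem init_mod (U : BM) (x : List Bool) :
    (initList (mod U).tm (x.map (mod U).inputAlphabet.invFun) : CM U) =
      ⟨some (some (entry (top (U := U)))), (mem₀ U, false),
        (mkS (mem₀ U) (E₀ U) (update z₀ .inp x)).S⟩ := by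
  have hx : x.map (mod U).inputAlphabet.invFun = x := List.map_id x
  rw [hx]
  unfold initList
  congr 1
  funext k
  rcases k with k | y
  · rfl
  · by_cases h : y = Nm.inp
    · subst h
      rfl
    · have h1 : (mkS (mem₀ U) (E₀ U) (update z₀ .inp x)).S (.inr y) = [] := by
        simp [h, z₀]
      rw [h1]
      refine dif_neg ?_
      intro h2
      exact h (Sum.inr_injective h2)

/-- the halting configurations of the modified machine -/
theorem halt_mod (U : BM) (x : List Bool) :
    (haltList (mod U).tm (x.map (mod U).outputAlphabet.invFun) : CM U) =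
      ⟨none, (mem₀ U, false), (mkS (mem₀ U) (E₀ U) (update z₀ .out x)).S⟩ := by
  have hx : x.map (mod U).outputAlphabet.invFun = x := List.map_id x
  rw [hx]
  unfold haltList
  congr 1
  funext k
  rcases k with k | y
  · rfl
  · by_cases h : y = Nm.out
    · subst h
      rfl
    · have h1 : (mkS (mem₀ U) (E₀ U) (update z₀ .out x)).S (.inr y) = [] := by
        simp [h, z₀]
      rw [h1]
      refine dif_neg ?_
      intro h2
      exact h (Sum.inr_injective h2)

/-- a run of the program `top` gives an output of the modified machine -/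
theorem outputs_of_run (U : BM) {x y : List Bool} {v' : MM U} {N t : ℕ}
    (h : Run top (mkS (mem₀ U) (E₀ U) (update z₀ .inp x)) (mkS v' (E₀ U) (update z₀ .out y)) N)
    (ht : N + 1 ≤ t) : (mod U).Outputs x y t := by
  have e := machine_run (i := (.inr .inp : KK U)) (o := (.inr .out : KK U)) (init := mem₀ U) h rfl
  refine ⟨⟨⟨N + 1, ?_⟩, ht⟩⟩
  have e1 := init_mod U x
  have e2 := halt_mod U y
  show (flip bind (TM2.step (machine top (.inr .inp) (.inr .out) (mem₀ U)).m))^[N + 1]
    (some (initList (mod U).tm (x.map (mod U).inputAlphabet.invFun) : CM U)) =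
    some (haltList (mod U).tm (y.map (mod U).outputAlphabet.invFun) : CM U)
  rw [e1, e2]
  exact e

/-- the output of the modified machine is determined by a run of the program -/
theorem outputs_det (U : BM) {x y y' : List Bool} {v' : MM U} {N t : ℕ}
    (h : Run top (mkS (mem₀ U) (E₀ U) (update z₀ .inp x)) (mkS v' (E₀ U) (update z₀ .out y)) N)
    (h' : (mod U).Outputs x y' t) : y' = y ∧ N + 1 ≤ t := by
  have e := machine_run (i := (.inr .inp : KK U)) (o := (.inr .out : KK U)) (init := mem₀ U) h rfl
  obtain ⟨⟨⟨N', hN'⟩, ht⟩⟩ := h'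
  have e1 := init_mod U x
  have e2 := halt_mod U y'
  have hN : (flip bind (TM2.step (machine top (.inr .inp) (.inr .out) (mem₀ U)).m))^[N']
    (some (initList (mod U).tm (x.map (mod U).inputAlphabet.invFun) : CM U)) =
    some (haltList (mod U).tm (y'.map (mod U).outputAlphabet.invFun) : CM U) := hN'
  rw [e1, e2] at hN
  obtain ⟨h1, h2⟩ := steps_det e rfl hN rfl
  have ht' : N' ≤ t := ht
  refine ⟨?_, by omega⟩
  have h3 := congrFun (congrArg TM2.Cfg.stk h2) (.inr .out)
  have h4 : update z₀ Nm.out y Nm.out = update z₀ Nm.out y' Nm.out := h3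
  rw [update_self, update_self] at h4
  exact h4.symm

theorem pf_MS : T_SPC → T_WFS → T_MS := by
  intro hS hW U
  obtain ⟨B, hB⟩ := hS U
  refine ⟨B + 4, ?_⟩
  intro x
  obtain ⟨v', hv'⟩ := hB ((mem₀ U).sag true true) x rfl rfl rfl
  obtain ⟨N, hN, hR⟩ := Spec.run (hW U) hv'
  have hrun : ∃ N', N' ≤ N + 3 ∧
      Run top (mkS (mem₀ U) (E₀ U) (update z₀ .inp (true :: x)))
        (mkS v' (E₀ U) (update z₀ .out (so U x))) N' := by
    refine ⟨1 + ((N + 1) + 1), by omega, ?_⟩
    refine Run.seq (Run.pop _ _ _) ?_
    rw [upd_inr]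
    simp only [mkS_v, mkS_inr, update_self, update_idem, List.head?_cons, List.tail_cons,
      Option.getD_some, Option.isSome_some]
    exact Run.ite_true rfl (Run.ite_true rfl hR)
  obtain ⟨N', hN', hR'⟩ := hrun
  refine ⟨outputs_of_run U hR' ?_, fun y t hy => (outputs_det U hR' hy).1⟩
  have h1 : 1 ≤ (x.length + (prs x).n + 2) ^ 3 * 2 ^ ((prs x).n - 5 * (prs x).lam) :=
    Nat.one_le_iff_ne_zero.2 (by positivity)
  rw [mul_assoc] at hN ⊢
  rw [add_mul]
  omega

end Pool.Agent.H30.KT
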