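import Pool.Agent.H49.KT.Targets

/-!
Module NEW of the board kt_modules.
-/

namespace Pool.Agent.H30.KT

open Pool.Agent.H49.KT Function Turing

theorem fs_halted (U : BM) (c : CF U) (h : c.l = none) : fs U c = c := by
  obtain ⟨l, v, S⟩ := c
  simp only at h
  subst h
  rfl

theorem iter_halted (U : BM) (c : CF U) (h : c.l = none) (k : ℕ) : (fs U)^[k] c = c := by
  induction k with
  | zero => rfl
  | succ k ih => rw [iterate_succ_apply, fs_halted U c h, ih]

theorem at_halted (U : BM) (d : List Bool) {T T' : ℕ} (hT : T ≤ T') (h : (at' U T d).l = none) :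
    at' U T' d = at' U T d := by
  obtain ⟨k, rfl⟩ := Nat.exists_eq_add_of_le hT
  have : at' U (T + k) d = (fs U)^[k] (at' U T d) := by
    unfold at'
    rw [← iterate_add_apply, Nat.add_comm]
  rw [this, iter_halted U _ h]

theorem pf_NEW : T_DS → T_GR → T_PRS → T_NEW := by
  intro hDS hGR hPRS U c n h1 h2
  obtain ⟨hP1, -, -, -⟩ := hPRS
  obtain ⟨hD1, -, -⟩ := hDS
  have hw : ww U (code c n) = gr U (n - 5 * n.size) (n - (en c).length) (en c) := by
    unfold ww
    rw [hP1 c n]
    simp
  obtain ⟨hg1, hg2, hg3⟩ := hGR U (n - 5 * n.size) (n - (en c).length) (en c)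
  rw [hw]
  generalize gr U (n - 5 * n.size) (n - (en c).length) (en c) = w at hg1 hg2 hg3 ⊢
  generalize n - 5 * n.size = m at h1 hg3 ⊢
  have hc0 : cnt U m w = 0 := by
    by_contra hne
    have hpos : 1 ≤ cnt U m w := Nat.one_le_iff_ne_zero.2 hne
    have hle : cnt U m (en c) ≤ 2 ^ (m + 1) := by
      unfold cnt cntN
      exact (Finset.card_filter_le _ _).trans (by simp)
    have h3 : 2 ^ (m + 2) ≤ 2 ^ (n - (en c).length) := Nat.pow_le_pow_right (by norm_num) h1
    have h4 : 2 ^ (n - (en c).length) * 1 ≤ 2 ^ (n - (en c).length) * cnt U m w :=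
      Nat.mul_le_mul_left _ hpos
    have h5 : 2 ^ (m + 1) < 2 ^ (m + 2) := Nat.pow_lt_pow_right (by norm_num) (by omega)
    omega
  refine ⟨by omega, hg1, ?_⟩
  intro d T hT hout
  by_contra hcon
  rw [not_lt] at hcon
  have hT1 : 1 ≤ T := by
    rcases Nat.eq_zero_or_pos T with h | h
    · subst h
      simp [at', ini] at hT
    · exact h
  have hd : d.length ≤ m := by
    have : 2 ^ d.length ≤ 2 ^ m := le_trans (Nat.le_mul_of_pos_right _ hT1) hcon
    exact (Nat.pow_le_pow_iff_right (by norm_num)).1 this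
  have hTm : T ≤ 2 ^ (m - d.length) := by
    have e : 2 ^ m = 2 ^ d.length * 2 ^ (m - d.length) := by
      rw [← pow_add]
      congr 1
      omega
    rw [e] at hcon
    exact Nat.le_of_mul_le_mul_left hcon (by positivity)
  obtain ⟨i, hi1, hi2⟩ := hD1 d.reverse
  rw [List.length_reverse] at hi2
  have hoo : oo U m i = w := by
    unfold oo
    rw [hi1, List.length_reverse, List.reverse_reverse, ← hout]
    unfold rawOut
    rw [at_halted U d hTm hT]
  have hmem : i ∈ (Finset.range (2 ^ (m + 1))).filter (fun i => w <+: oo U m i) := by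
    rw [Finset.mem_filter, Finset.mem_range]
    refine ⟨?_, by rw [hoo]⟩
    have : 2 ^ (d.length + 1) ≤ 2 ^ (m + 1) := Nat.pow_le_pow_right (by norm_num) (by omega)
    omega
  have : 0 < cnt U m w := by
    unfold cnt cntN
    exact Finset.card_pos.2 ⟨i, hmem⟩
  omega

end Pool.Agent.H30.KT
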